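import Pool.Agent.H19.EV.Def

/-! # EV.Cov : the specialisations of a point over `Ω` lie on an affine curve (about 200 lines)

`D₀` = the subalgebra of `Om K` generated over `K` by the values of `s.b` and `s.x`, `s.y`: a domain of finite type over `K` (`A` is: finite over `K[X]`).  CASE 1: `D₀` is algebraic over `K`, i.e. equal to `K` (algebraically closed): `s` is the constant point `P₀ = (b₀, x₀, y₀)`, and every `P` with `Sp π s P` is `P₀`.  Take the fibre: `y' ∈ Ω` with
`y'² = tt³ + b₀(a) tt + b₀(b)`, `D` the subalgebra generated by `tt` and `y'` (integral over `K[tt]`), `q` = `b₀` (constants), `x = tt`, `y = y'`.  A homomorphism `p : D → K` with `tt ↦ x₀`, `y' ↦ y₀`: by `place_exists K x₀` there is one with `y' ↦ ± y₀`; if `y' ↦ -y₀` replace `y'` by `-y'` (in the definition of the curve data).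
CASE 2: some element of `D₀` is transcendental over `K`.  Noether normalisation (`exists_integral_inj_algHom_of_fg` or similar): `MvPolynomial (Fin n) K → D₀` injective and integral; `n ≤ 1` because `Om K` has transcendence degree 1 over `K` and `n ≥ 1`; so `K[X] → D₀` injective, integral, hence finite (finite type); give `D₀` this `K[X]`-algebra structure.
If `Sp π s P` then `D₀ ⊆ π.V` (generators; `Algebra.adjoin_induction`) and the reduction `D₀ → K` (`exists_redHom`) is a homomorphism `p` with `c.pt p = P`. -/

namespace H19.ES

open H68.BB Polynomial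

theorem cov {K A : Type} [Field K] [IsAlgClosed K] [CommRing A] [Algebra K A] [Algebra.FiniteType K A] {a b : A} {s : Pt K A (Om K)}
    (hs : OnS a b s) : ∃ c : CD K A a b, ∀ (π : Place K (Om K)) (P : Pt K A K), Sp π s P → ∃ p : c.D →ₐ[K] K, c.pt p = P := by
  sorry

end H19.ES
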