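import Pool.Agent.H19.ES.Main

/-! # EV.Def : zero-cycles supported on a curve of the elliptic surface `S` (definitions only) -/

namespace H19.ES

open H68.BB Polynomial

variable {K A : Type} [Field K] [CommRing A] [Algebra K A]

/-- zero-cycles on the surface -/
abbrev Cyc1 (K A : Type) [Field K] [CommRing A] [Algebra K A] : Type := Pt K A K →₀ ℤ

open Classical in
/-- the exterior product `z 0 × z 1 × ... × z (m - 1)`: the coefficient at the tuple `f` is the product of the
coefficients of `z i` at `f i` -/
noncomputable def prodM {m : ℕ} (z : Fin m → Cyc1 K A) : Cyc K A m :=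
  ∑ f ∈ Fintype.piFinset (fun i => (z i).support), Finsupp.single f (∏ i, z i (f i))

/-- the points which are specialisations of one of the points `s 0, ..., s (r - 1)` over `Ω`: the closed points of the
union of finitely many irreducible curves (or closed points) -/
def SpecOf {r : ℕ} (s : Fin r → Pt K A (Om K)) : Set (Pt K A K) := {P | ∃ (π : Place K (Om K)) (j : Fin r), Sp π (s j) P}

/-- an affine curve `Spec D`, finite over the line, with a closed immersion `(q, x, y)` to the plane over `Spec A`, mapping to `S` -/
structure CD (K A : Type) [Field K] [CommRing A] [Algebra K A] (a b : A) where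
  D : Type
  [cr : CommRing D]
  [dom : IsDomain D]
  [al : Algebra K D]
  [alX : Algebra K[X] D]
  [st : IsScalarTower K K[X] D]
  [fin : Module.Finite K[X] D]
  [ff : FaithfulSMul K[X] D]
  q : A →ₐ[K] D
  x : D
  y : D
  hgen : Algebra.adjoin K (Set.range q ∪ {x, y}) = ⊤
  on : y ^ 2 = x ^ 3 + q a * x + q b

attribute [instance] CD.cr CD.dom CD.al CD.alX CD.st CD.fin CD.ff

/-- the point of `S` given by a point of the curve -/
def CD.pt {a b : A} (c : CD K A a b) (p : c.D →ₐ[K] K) : Pt K A K := ⟨p.comp c.q, p c.x, p c.y⟩

end H19.ES
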