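import Pool.Agent.H19.EV.One
import Pool.Agent.H19.EV.Cov

/-! # EV.Main : exterior products of many zero-cycles supported on a curve are torsion (about 150 lines)

For every `j < r` a curve `c j` (`cov`) and `m_j` (`one`); `m = ∑ m_j + 1`.  By `of_fnl` it is enough to show `(prodM z).sum (fun f n => n • Φ.cl f) = 0` for every functional `Φ` with values in a torsion-free group; it is enough to show `Φ.cl f = 0` for all tuples `f` of points `f i ∈ (z i).support`.  Every `f i` is on some curve `c (j i)`; by the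
pigeonhole principle (`Fintype.exists_lt_card_fiber_of_..` or `Finset.sum` of the cardinalities of the fibres of `i ↦ j i`) there is a `j` such that at least `m_j` indices `i` have `j i = j`; choose an injection `e : Fin m_j → Fin m` into them; `slots` with `e` and `one` give `Φ.cl f = 0` (`f = extend e (f ∘ e) f`). -/

namespace H19.ES

open H68.BB Polynomial

private theorem vm_cst {K A : Type} [Field K] [CommRing A] [Algebra K A] {a b : A} {P : Pt K A K}
    (h : OnS a b P) : OnS a b (cst' P) := by
  have h1 := congrArg (algebraMap K (Om K)) h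
  simp only [map_add, map_mul, map_pow] at h1
  exact h1

private theorem vm_on {K A : Type} [Field K] [CommRing A] [Algebra K A] {a b : A} (c : CD K A a b)
    (p : c.D →ₐ[K] K) : OnS a b (c.pt p) := by
  have h1 := congrArg p c.on
  simp only [map_add, map_mul, map_pow] at h1
  exact h1

private theorem vm_supp {K A : Type} [Field K] [CommRing A] [Algebra K A] {m : ℕ} (z : Fin m → Cyc1 K A)
    {f : Fin m → Pt K A K} (hf : f ∈ (prodM z).support) (i : Fin m) : f i ∈ (z i).support := by
  classical
  by_contra hi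
  rw [Finsupp.mem_support_iff] at hf
  apply hf
  unfold prodM
  rw [Finsupp.finsetSum_apply]
  refine Finset.sum_eq_zero fun g hg => ?_
  rw [Finsupp.single_apply, if_neg]
  rintro rfl
  exact hi ((Fintype.mem_piFinset.1 hg) i)

private theorem vm_pig {m r : ℕ} (mj : Fin r → ℕ) (hm : ∑ j, mj j < m) (j : Fin m → Fin r) :
    ∃ (j0 : Fin r) (e : Fin (mj j0) → Fin m), Function.Injective e ∧ ∀ x, j (e x) = j0 := by
  classical
  have h1 : ∃ j0, mj j0 ≤ (Finset.univ.filter fun i => j i = j0).card := by
    by_contra hno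
    push Not at hno
    have h2 := Finset.card_eq_sum_card_fiberwise (s := (Finset.univ : Finset (Fin m)))
      (t := (Finset.univ : Finset (Fin r))) (f := j) (fun _ _ => Finset.mem_univ _)
    have h3 : ∑ b : Fin r, (Finset.univ.filter fun i => j i = b).card ≤ ∑ b, mj b :=
      Finset.sum_le_sum fun b _ => (hno b).le
    rw [Finset.card_univ, Fintype.card_fin] at h2
    omega
  obtain ⟨j0, h⟩ := h1
  refine ⟨j0, fun x => ((Finset.univ.filter fun i => j i = j0).equivFin.symm (Fin.castLE h x)).1, ?_, ?_⟩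
  · intro x y hxy
    have h2 := Subtype.val_injective hxy
    exact Fin.castLE_injective h (Equiv.injective _ h2)
  · intro x
    exact (Finset.mem_filter.1 ((Finset.univ.filter fun i => j i = j0).equivFin.symm (Fin.castLE h x)).2).2

theorem v1 {K A : Type} [Field K] [IsAlgClosed K] [CharZero K] [CommRing A] [IsDomain A] [Algebra K A] [Algebra K[X] A]
    [IsScalarTower K K[X] A] [Module.Finite K[X] A] [FaithfulSMul K[X] A] {a b : A}
    (hj : ∀ p q : K, algebraMap K A p * a ^ 3 + algebraMap K A q * b ^ 2 = 0 → p = 0 ∧ q = 0) {r : ℕ}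
    (s : Fin r → Pt K A (Om K)) (hs : ∀ j, OnS a b (s j)) :
    ∃ m : ℕ, 0 < m ∧ ∀ z : Fin m → Cyc1 K A, (∀ i, ∀ P ∈ (z i).support, P ∈ SpecOf s) →
      ∃ N : ℕ, 0 < N ∧ N • prodM z ∈ RatEq (OnS (K := K) a b) m := by
  have : Algebra.FiniteType K A := Algebra.FiniteType.trans (S := K[X]) inferInstance inferInstance
  choose c hc using fun j => cov (hs j)
  choose mj _ hone using fun j => one hj (c j)
  refine ⟨∑ j, mj j + 1, Nat.succ_pos _, fun z hz => of_fnl _ _ _ fun G _ hG Φ => ?_⟩
  refine Finset.sum_eq_zero fun f hf => ?_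
  have h1 : ∀ i, ∃ j, ∃ p : (c j).D →ₐ[K] K, (c j).pt p = f i := by
    intro i
    obtain ⟨π, j, hj'⟩ := hz i (f i) (vm_supp z hf i)
    exact ⟨j, hc j π (f i) hj'⟩
  choose j p hp using h1
  obtain ⟨j0, e, he, hje⟩ := vm_pig mj (Nat.lt_succ_self _) j
  have hon : ∀ i, OnS a b (f i) := fun i => by
    rw [← hp i]
    exact vm_on (c (j i)) (p i)
  obtain ⟨Ψ, hΨ⟩ := slots Φ f (fun i => vm_cst (hon i)) e he
  have h2 : ∀ x, ∃ p : (c j0).D →ₐ[K] K, (c j0).pt p = f (e x) := by
    intro x
    have h3 : ∃ p : (c (j (e x))).D →ₐ[K] K, (c (j (e x))).pt p = f (e x) := ⟨p (e x), hp (e x)⟩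
    rw [hje x] at h3
    exact h3
  choose p' hp' using h2
  have h3 := hone j0 G hG Ψ p'
  have h4 : (fun x => (c j0).pt (p' x)) = f ∘ e := funext hp'
  have h5 : Function.extend e (f ∘ e) f = f := by
    funext i
    by_cases hi : ∃ x, e x = i
    · obtain ⟨x, rfl⟩ := hi
      rw [he.extend_apply]
      rfl
    · rw [Function.extend_apply' _ _ _ hi]
  rw [h4, hΨ, h5] at h3
  show (prodM z) f • Φ.cl f = 0
  rw [h3, smul_zero]

end H19.ES
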