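import Pool.Agent.H19.EV.SymC
import Pool.Agent.H25.SW.Main

/-! # EV.One : products of many points of one curve vanish (about 200 lines)

`k0` from `main`'s functional form (below: `mainF`), `n` from `symC`; `m = (n - 1) * (k0 - 1) + 1` (take `k0 ≥ 1`), `H25.SW.sw_mod` with `g + 1 = n`, `k + 1 = k0`.  The group is `Perm (Fin m) → G` with `act σ F = fun ρ => F (ρ * σ)` (check: `act (σ τ) = act σ ∘ act τ` requires `F (ρ σ τ)`: `(act σ (act τ F)) ρ = (act τ F)(ρ σ) = F (ρ σ τ)`), and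
`x ρ = Φ.cl (P ∘ ρ)`, `P j = c.pt (p j)`.  `ha`: for `J` with `k0` elements and `τ`, `ρ`: `∑ σ ∈ PJ J, sign σ • Φ.cl (P ∘ ρ ∘ σ ∘ τ) = 0`: the functional `s ↦ Φ.cl (s ∘ τ)` (`perm`) restricted to the slots `J` (`slots` with the enumeration `e : Fin k0 → Fin m` of `J` and the other points `(P ∘ ρ) i`) and `mainF`; `PJ J` is in
bijection with `Perm (Fin k0)` (`Equiv.Perm.viaEmbedding`/`extendDomain` or `Equiv.Perm.subtypeEquiv..`; signs agree).  `hs` the same with `symC`.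
`mainF`: the theorem `main` for functionals: as in the proof of Main.lean (`level2`, `l2`, `tfun`, `surj`). -/

namespace H19.ES

open H68.BB Polynomial

variable {K A : Type} [Field K] [IsAlgClosed K] [CharZero K] [CommRing A] [IsDomain A] [Algebra K A] [Algebra K[X] A]
  [IsScalarTower K K[X] A] [Module.Finite K[X] A] [FaithfulSMul K[X] A] {a b : A}

theorem mainF (hj : ∀ p q : K, algebraMap K A p * a ^ 3 + algebraMap K A q * b ^ 2 = 0 → p = 0 ∧ q = 0) :
    ∃ k0 : ℕ, ∀ k, k0 ≤ k → ∀ (G : Type) [AddCommGroup G], TF G → ∀ Φ : Fnl (OnS (K := K) a b) k G,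
      ∀ P : Fin k → Pt K A K, (∀ i, OnS a b (P i)) → altSum Φ.cl P = 0 := by
  obtain ⟨im, him⟩ := IsAlgClosed.exists_pow_nat_eq (-1 : K) (n := 2) two_pos
  obtain ⟨A', _, _, _, _, _, _, _, i, e, be, ga, hi, hint, he, hbe2, hga2, hbe0, hgac⟩ := level2 hj
  obtain ⟨k0, hk0⟩ := l2 him hbe0 hgac
  refine ⟨k0, fun k hk G _ hG Φ P hP => ?_⟩
  obtain ⟨Ψ, hInv, hΨ⟩ := tfun hint him he hbe2 hga2 Φ
  choose Q hQ hQP using fun j => surj hi hint him he hbe2 hga2 (P j) (hP j)
  have h1 := hk0 k hk G hG Ψ hInv Q hQ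
  have h2 : altSum Φ.cl P = altSum Ψ.cl Q := by
    unfold altSum
    apply Finset.sum_congr rfl
    intro σ _
    rw [hΨ]
    congr 2
    funext j
    exact (hQP (σ j)).symm
  rw [h2, h1]

/-- the permutations of `J` and the permutations of the slots of `J` -/
private theorem sum_PJ {m n : ℕ} {J : Finset (Fin m)} {e : Fin n ↪ Fin m} (he : ∀ i, i ∈ J ↔ ∃ j, e j = i) {G : Type}
    [AddCommGroup G] (F : Equiv.Perm (Fin m) → G) :
    ∑ σ ∈ H25.SW.PJ J, F σ = ∑ ς : Equiv.Perm (Fin n), F (ς.viaFintypeEmbedding e) := by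
  symm
  refine Finset.sum_bij (fun ς _ => ς.viaFintypeEmbedding e) ?_ ?_ ?_ ?_
  · intro ς _
    unfold H25.SW.PJ
    rw [Finset.mem_filter]
    refine ⟨Finset.mem_univ _, fun i hi => ?_⟩
    apply Equiv.Perm.viaFintypeEmbedding_apply_notMem_range
    rintro ⟨j, hj⟩
    exact hi ((he i).2 ⟨j, hj⟩)
  · intro ς _ ς' _ h
    apply Equiv.ext
    intro j
    apply e.injective
    rw [← Equiv.Perm.viaFintypeEmbedding_apply_image, ← Equiv.Perm.viaFintypeEmbedding_apply_image, h]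
  · intro σ hσ
    unfold H25.SW.PJ at hσ
    rw [Finset.mem_filter] at hσ
    have h1 : ∀ j, ∃ j', e j' = σ (e j) := by
      intro j
      rw [← he]
      by_contra h
      have h2 := hσ.2 _ h
      have h3 := σ.injective h2
      rw [h3] at h
      exact h ((he _).2 ⟨j, rfl⟩)
    choose f hf using h1
    have hinj : Function.Injective f := by
      intro j j' h
      apply e.injective
      apply σ.injective
      rw [← hf, ← hf, h]
    refine ⟨Equiv.ofBijective f (Finite.injective_iff_bijective.1 hinj), Finset.mem_univ _, ?_⟩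
    apply Equiv.ext
    intro i
    by_cases hi : i ∈ J
    · obtain ⟨j, rfl⟩ := (he i).1 hi
      rw [Equiv.Perm.viaFintypeEmbedding_apply_image]
      exact hf j
    · rw [hσ.2 i hi]
      apply Equiv.Perm.viaFintypeEmbedding_apply_notMem_range
      rintro ⟨j, hj⟩
      exact hi ((he i).2 ⟨j, hj⟩)
  · intro ς _
    rfl

omit [IsAlgClosed K] [CharZero K] [IsDomain A] [Algebra K[X] A] [IsScalarTower K K[X] A] [Module.Finite K[X] A]
  [FaithfulSMul K[X] A] in
private theorem OnS_cst' {P : Pt K A K} (h : OnS a b P) : OnS a b (cst' P) := by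
  have h1 := congrArg (algebraMap K (Om K)) h
  simp only [map_add, map_mul, map_pow] at h1
  exact h1

omit [IsAlgClosed K] [CharZero K] [IsDomain A] [Algebra K[X] A] [IsScalarTower K K[X] A] [Module.Finite K[X] A]
  [FaithfulSMul K[X] A] in
private theorem pt_OnS (c : CD K A a b) (p : c.D →ₐ[K] K) : OnS a b (c.pt p) := by
  have h1 := congrArg p c.on
  simp only [map_add, map_mul, map_pow] at h1
  exact h1

omit [IsAlgClosed K] [CharZero K] [IsDomain A] [Algebra K[X] A] [IsScalarTower K K[X] A] [Module.Finite K[X] A]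
  [FaithfulSMul K[X] A] in
private theorem restr {G : Type} [AddCommGroup G] {m n : ℕ} (Ψ : Fnl (OnS (K := K) a b) m G) {P : Fin m → Pt K A K}
    (hP : ∀ i, OnS a b (P i)) {J : Finset (Fin m)} (hJ : J.card = n) :
    ∃ (Θ : Fnl (OnS (K := K) a b) n G) (e : Fin n ↪ Fin m), (∀ i, i ∈ J ↔ ∃ j, e j = i) ∧
      ∀ ς : Equiv.Perm (Fin n), Θ.cl ((P ∘ e) ∘ ς) = Ψ.cl (P ∘ ς.viaFintypeEmbedding e) := by
  let e : Fin n ↪ Fin m := (J.orderEmbOfFin hJ).toEmbedding
  obtain ⟨Θ, hΘ⟩ := slots Ψ P (fun i => OnS_cst' (hP i)) e e.injective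
  refine ⟨Θ, e, fun i => ?_, fun ς => ?_⟩
  · have h1 := Finset.range_orderEmbOfFin J hJ
    constructor
    · intro hi
      have h2 : i ∈ Set.range (J.orderEmbOfFin hJ) := by
        rw [h1]
        exact hi
      exact h2
    · rintro ⟨j, rfl⟩
      exact Finset.orderEmbOfFin_mem J hJ j
  · rw [hΘ]
    congr 1
    funext i
    by_cases hi : ∃ j, e j = i
    · obtain ⟨j, rfl⟩ := hi
      rw [e.injective.extend_apply, Function.comp_apply, Function.comp_apply, Function.comp_apply,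
        Equiv.Perm.viaFintypeEmbedding_apply_image]
    · rw [Function.extend_apply' _ _ _ hi, Function.comp_apply, Equiv.Perm.viaFintypeEmbedding_apply_notMem_range]
      rintro ⟨j, hj⟩
      exact hi ⟨j, hj⟩

theorem one (hj : ∀ p q : K, algebraMap K A p * a ^ 3 + algebraMap K A q * b ^ 2 = 0 → p = 0 ∧ q = 0) (c : CD K A a b) :
    ∃ m : ℕ, 0 < m ∧ ∀ (G : Type) [AddCommGroup G], TF G → ∀ Φ : Fnl (OnS (K := K) a b) m G,
      ∀ p : Fin m → (c.D →ₐ[K] K), Φ.cl (fun j => c.pt (p j)) = 0 := by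
  obtain ⟨k0, hk0⟩ := mainF hj
  obtain ⟨n, hn0, hn⟩ := symC c
  obtain ⟨m, hlt⟩ : ∃ m : ℕ, (n - 1) * k0 < m := ⟨_, Nat.lt_succ_self _⟩
  refine ⟨m, Nat.zero_lt_of_lt hlt, ?_⟩
  intro G _ hG Φ p
  let P : Fin m → Pt K A K := fun j => c.pt (p j)
  have hP : ∀ i, OnS a b (P i) := fun i => pt_OnS c (p i)
  let act : Equiv.Perm (Fin m) → (Equiv.Perm (Fin m) → G) →+ (Equiv.Perm (Fin m) → G) := fun σ =>
    { toFun := fun F ρ => F (ρ * σ)
      map_zero' := rfl
      map_add' := fun _ _ => rfl }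
  have hact : ∀ σ (F : Equiv.Perm (Fin m) → G) ρ, act σ F ρ = F (ρ * σ) := fun _ _ _ => rfl
  let x : Equiv.Perm (Fin m) → G := fun ρ => Φ.cl (P ∘ ρ)
  have key : x = 0 := by
    refine H25.SW.sw_mod hlt (A := Equiv.Perm (Fin m) → G) ?_ act ?_ ?_ x ?_ ?_
    · intro n x hn hx
      funext ρ
      exact hG n (x ρ) hn.ne' (congrFun hx ρ)
    · intro x
      funext ρ
      rw [hact, mul_one]
    · intro σ τ x
      funext ρ
      rw [hact, hact, hact, mul_assoc]
    · intro J τ hJ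
      funext ρ
      rw [Finset.sum_apply, Pi.zero_apply]
      obtain ⟨Ψ, hΨ⟩ := perm Φ τ
      obtain ⟨Θ, e, he, hΘ⟩ := restr Ψ (P := P ∘ ρ) (fun i => hP (ρ i)) hJ
      have h1 := hk0 (k0 + 1) (Nat.le_succ k0) G hG Θ ((P ∘ ρ) ∘ e) (fun i => hP (ρ (e i)))
      rw [sum_PJ he, ← h1]
      unfold altSum
      apply Finset.sum_congr rfl
      intro ς _
      rw [Pi.smul_apply, Equiv.Perm.viaFintypeEmbedding_sign, hΘ, hΨ]
      rfl
    · intro I τ hI
      funext ρ
      rw [Finset.sum_apply, Pi.zero_apply]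
      obtain ⟨Ψ, hΨ⟩ := perm Φ τ
      have hI' : I.card = n := by omega
      obtain ⟨Θ, e, he, hΘ⟩ := restr Ψ (P := P ∘ ρ) (fun i => hP (ρ i)) hI'
      have h1 := hn G hG Θ (fun j => p (ρ (e j)))
      rw [sum_PJ he, ← h1]
      apply Finset.sum_congr rfl
      intro ς _
      have h2 : (fun j => c.pt (p (ρ (e (ς j))))) = ((P ∘ ρ) ∘ e) ∘ ς := rfl
      rw [h2, hΘ, hΨ]
      rfl
  have h1 := congrFun key 1
  exact h1

end H19.ES
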