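import Pool.Agent.H19.EV.Def

/-! # EV.SymC : symmetrised products of many points of a curve vanish (about 250 lines)

`mvg` for the ring `c.D` (a basis over `K[X]`: finite and torsion-free over a principal ideal domain), `be = ga = 1`: `E, k1, B`; `n = max k1 1`.
(1) `p : Fin n → (D → K)` with distinct `t`-values not in `B`: let `π0` be a place with `tt ↦ 0`, `mv : Mvg 1 1 n E p π0`, `u ≠ 0` (`E + 1 ≥ 1`), `bt = mv.bt u`.  The multiset (over all permutations `σ`) of the tuples `j ↦ ⟨(bt (σ j)).comp q, bt (σ j) x, bt (σ j) y⟩` is on `S` (`c.on`), Galois-stable (`mv.gal`), at `π0` it has the limit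
`∑ σ, Φ.cl (j ↦ c.pt (p (σ j)))` (`mv.red`, `Lim.map`), and at the place with `tt ∉ V` (`H71.K3.place_inf`) everything is dropped: otherwise all `bt i r` are integral (`c.hgen`, `Algebra.adjoin_induction`), so `u = 0` by `mv.inf`.  So the sum is `0` (`Fnl.eq_zero`).
(2) arbitrary `p`: descending induction on `j` (as in L2.lean): the claim for all `p` such that `p_0, …, p_(j-1)` have distinct `t`-values not in `B`.  Step: fix the other points, `Θ` = the functional in the slot `j` of the symmetric sum (`sumPerm` below and `slots`).  `Z` = the finite set of the homomorphisms `z` with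
`z t ∈ B ∪ {t(p_i)} ∪ {t(p_j)}` (`finite_hom`) and one more homomorphism; by `interp` there is `Y ∈ D` with `p_j Y = 0` and `z Y = 1` for the other elements of `Z`; `Y` is transcendental over `K` (not constant: two different values).  `psi` with `f = Y`, `p₀ = p_j` (`halg` from `alg_of`): every other zero `p'` of `Y` has `t(p') ∉ B ∪ {t(p_i)}`, so
`Θ = 0` there by induction; hence `Θ(p_j) = 0`.
`sumPerm`: the symmetric sum is a functional (as `alt` in Slot.lean; if it is a consequence of a more general lemma there, use it). -/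

namespace H19.ES

open H68.BB Polynomial

variable {K A : Type} [Field K] [IsAlgClosed K] [CharZero K] [CommRing A] [Algebra K A] {a b : A}

omit [IsAlgClosed K] [CharZero K] in
private theorem sc_sum {G ι α : Type} [AddCommGroup G] [Fintype ι] (S : Multiset α) (c : ι → α → G) :
    (S.map fun q => ∑ i, c i q).sum = ∑ i, (S.map (c i)).sum := by
  induction S using Multiset.induction_on with
  | empty => simp
  | cons q S ih =>
    simp only [Multiset.map_cons, Multiset.sum_cons, Finset.sum_add_distrib]
    rw [ih]

private theorem sc_rel {α β : Type} {r : α → β → Prop} {g : α → β} (hr : ∀ q d, r q d → d = g q)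
    {S : Multiset α} {C : Multiset β} (h : Multiset.Rel r S C) : C = S.map g := by
  induction h with
  | zero => rfl
  | cons hab _ ih => rw [Multiset.map_cons, ih, hr _ _ hab]

omit [IsAlgClosed K] [CharZero K] in
private theorem sc_lin {G ι : Type} [AddCommGroup G] [Fintype ι] {On : Pt K A (Om K) → Prop} {n : ℕ}
    (Φ : ι → Fnl On n G) : ∃ Ψ : Fnl On n G, ∀ p, Ψ.cl p = ∑ i, (Φ i).cl p := by
  have key : ∀ (π : Place K (Om K)) (S : Multiset (Fin n → Pt K A (Om K))) (c : G),
      Lim (fun p => ∑ i, (Φ i).cl p) π S c →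
      ∃ d : ι → G, (∀ i, Lim (Φ i).cl π S (d i)) ∧ c = ∑ i, d i := by
    rintro π S c ⟨C, hC, rfl⟩
    choose g hg using fun (i : ι) (q : Fin n → Pt K A (Om K)) => Lim1.exists' (Φ i).cl π q
    refine ⟨fun i => (S.map (g i)).sum, fun i => ?_, ?_⟩
    · have h1 := Lim.map (cl := (Φ i).cl) (π := π) S id (g i) fun q _ => hg i q
      rwa [Multiset.map_id] at h1
    · rw [← sc_sum]
      congr 1
      refine sc_rel (fun q d hd => ?_) hC
      rcases hd with ⟨p, hp, rfl⟩ | ⟨hq, rfl⟩
      · refine Finset.sum_congr rfl fun i _ => ?_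
        have h1 : Lim1 (Φ i).cl π q ((Φ i).cl p) := Or.inl ⟨p, hp, rfl⟩
        exact h1.unique (hg i q)
      · symm
        refine Finset.sum_eq_zero fun i _ => ?_
        have h1 : Lim1 (Φ i).cl π q 0 := Or.inr ⟨hq, rfl⟩
        exact (h1.unique (hg i q)).symm
  refine ⟨⟨fun p => ∑ i, (Φ i).cl p, fun S π π' c c' hS hG hc hc' => ?_⟩, fun _ => rfl⟩
  obtain ⟨d, hd, rfl⟩ := key π S c hc
  obtain ⟨d', hd', rfl⟩ := key π' S c' hc'
  refine Finset.sum_congr rfl fun i _ => ?_
  rw [(Φ i).rel S π π' (d i) (d' i) hS hG (hd i) (hd' i)]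

omit [IsAlgClosed K] [CharZero K] in
/-- the symmetric sum is a functional -/
private theorem sc_perm {G : Type} [AddCommGroup G] {On : Pt K A (Om K) → Prop} {n : ℕ}
    (Φ : Fnl On n G) : ∃ Ψ : Fnl On n G, ∀ p, Ψ.cl p = ∑ σ : Equiv.Perm (Fin n), Φ.cl (p ∘ σ) := by
  choose Ψ hΨ using fun τ : Equiv.Perm (Fin n) => perm Φ τ
  obtain ⟨Θ, hΘ⟩ := sc_lin Ψ
  refine ⟨Θ, fun p => ?_⟩
  rw [hΘ]
  exact Finset.sum_congr rfl fun τ _ => by rw [hΨ]

omit [IsAlgClosed K] [CharZero K] in
private theorem sc_upd {n : ℕ} (s : Fin n → Pt K A K) (i : Fin n) (P : Pt K A K) :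
    Function.extend (fun _ : Fin 1 => i) (fun _ => P) s = Function.update s i P := by
  have he : Function.Injective (fun _ : Fin 1 => i) := fun a b _ => Subsingleton.elim a b
  funext j
  by_cases hj : j = i
  · rw [hj, Function.update_self]
    exact he.extend_apply (fun _ => P) s 0
  · rw [Function.update_of_ne hj, Function.extend_apply' _ _ _ fun h => hj (by obtain ⟨_, h'⟩ := h; exact h'.symm)]

omit [IsAlgClosed K] [CharZero K] in
private theorem sc_cst {P : Pt K A K} (h : OnS a b P) : OnS a b (cst' P) := by
  have h1 := congrArg (algebraMap K (Om K)) h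
  simp only [map_add, map_mul, map_pow] at h1
  exact h1

omit [IsAlgClosed K] [CharZero K] in
private theorem sc_on {F : Type} [Field F] [Algebra K F] (c : CD K A a b) (p : c.D →ₐ[K] F) :
    OnS a b (⟨p.comp c.q, p c.x, p c.y⟩ : Pt K A F) := by
  have h1 := congrArg p c.on
  simp only [map_add, map_mul, map_pow] at h1
  exact h1

omit [IsAlgClosed K] [CharZero K] in
private theorem sc_alg {D : Type} [CommRing D] [IsDomain D] [Algebra K D] [Algebra K[X] D]
    [IsScalarTower K K[X] D] [Module.Finite K[X] D] (r : D) :
    IsAlgebraic (Algebra.adjoin K {tA K D}) r := by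
  have h1 : IsIntegral K[X] r := Algebra.IsIntegral.isIntegral r
  obtain ⟨P, hP, hPr⟩ := h1
  let φ : K[X] →ₐ[K] Algebra.adjoin K {tA K D} := aeval ⟨tA K D, Algebra.subset_adjoin rfl⟩
  have hφ : ∀ p : K[X], algebraMap (Algebra.adjoin K {tA K D}) D (φ p) = algebraMap K[X] D p := by
    intro p
    show ((aeval (⟨tA K D, Algebra.subset_adjoin rfl⟩ : Algebra.adjoin K {tA K D}) p :
      Algebra.adjoin K {tA K D}) : D) = algebraMap K[X] D p
    rw [← Subalgebra.aeval_coe]
    show aeval (algebraMap K[X] D X) p = algebraMap K[X] D p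
    rw [aeval_algebraMap_apply, aeval_X_left_apply]
  have h2 : IsIntegral (Algebra.adjoin K {tA K D}) r := by
    refine ⟨P.map (φ : K[X] →+* Algebra.adjoin K {tA K D}), hP.map _, ?_⟩
    rw [eval₂_map]
    have h3 : (algebraMap (Algebra.adjoin K {tA K D}) D).comp (φ : K[X] →+* Algebra.adjoin K {tA K D}) =
        algebraMap K[X] D := RingHom.ext hφ
    rw [h3]
    exact hPr
  exact h2.isAlgebraic

omit [CharZero K] in
private theorem sc_trans {D : Type} [CommRing D] [IsDomain D] [Algebra K D] {Y : D} {p0 z1 : D →ₐ[K] K}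
    (h0 : p0 Y = 0) (h1 : z1 Y = 1) : Transcendental K Y := by
  intro h
  have hint : IsIntegral K Y := h.isIntegral
  have h2 := IsAlgClosed.degree_eq_one_of_irreducible K (minpoly.irreducible hint)
  obtain ⟨c, hc⟩ := minpoly.mem_range_of_degree_eq_one K Y h2
  rw [← hc, AlgHom.commutes] at h0 h1
  exact zero_ne_one (h0.symm.trans h1)

private theorem sc_good (c : CD K A a b) {n E : ℕ} {p : Fin n → (c.D →ₐ[K] K)} {π0 : Place K (Om K)}
    (mv : Mvg (1 : c.D) 1 n E p π0) {G : Type} [AddCommGroup G] (Φ : Fnl (OnS a b) n G) :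
    ∑ σ : Equiv.Perm (Fin n), Φ.cl (fun j => c.pt (p (σ j))) = 0 := by
  classical
  obtain ⟨π1, hπ1⟩ := H71.K3.place_inf K
  let u : Fin (E + 1) → K := fun _ => 1
  have hu : u ≠ 0 := fun h => one_ne_zero (congrFun h 0)
  let F : Equiv.Perm (Fin n) → Fin n → Pt K A (Om K) := fun σ j =>
    ⟨(mv.bt u (σ j)).comp c.q, mv.bt u (σ j) c.x, mv.bt u (σ j) c.y⟩
  have hlim : Lim Φ.cl π0 ((Finset.univ : Finset (Equiv.Perm (Fin n))).val.map F)
      ((Finset.univ : Finset (Equiv.Perm (Fin n))).val.map fun σ => Φ.cl fun j => c.pt (p (σ j))).sum := by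
    refine Lim.map _ F _ fun σ _ => Or.inl ⟨fun j => c.pt (p (σ j)), fun j => ?_, rfl⟩
    exact ⟨fun r => mv.red u (σ j) (c.q r), mv.red u (σ j) c.x, mv.red u (σ j) c.y⟩
  refine Φ.eq_zero (π' := π1) (S := (Finset.univ : Finset (Equiv.Perm (Fin n))).val.map F) ?_ ?_ hlim ?_
  · intro s hs i
    obtain ⟨σ, _, rfl⟩ := Multiset.mem_map.1 hs
    exact sc_on c (mv.bt u (σ i))
  · intro τ
    obtain ⟨ρ, hρ⟩ := mv.gal u τ
    rw [Multiset.map_map]
    have h1 : Multiset.map (gal τ ∘ F) (Finset.univ : Finset (Equiv.Perm (Fin n))).val =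
        Multiset.map (F ∘ fun σ => ρ * σ) (Finset.univ : Finset (Equiv.Perm (Fin n))).val := by
      refine Multiset.map_congr rfl fun σ _ => ?_
      funext j
      have h2 := hρ (σ j)
      have h3 : ∀ r, τ (mv.bt u (σ j) r) = mv.bt u (ρ (σ j)) r := fun r => DFunLike.congr_fun h2 r
      refine Pt.ext ?_ ?_ ?_
      · apply AlgHom.ext
        intro r
        exact h3 (c.q r)
      · exact h3 c.x
      · exact h3 c.y
    rw [h1, ← Multiset.map_map]
    have h2 : Multiset.map (fun σ => ρ * σ) (Finset.univ : Finset (Equiv.Perm (Fin n))).val =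
        (Finset.univ : Finset (Equiv.Perm (Fin n))).val := by
      have h3 := congrArg Finset.val (Finset.map_univ_equiv (Equiv.mulLeft ρ))
      rw [Finset.map_val] at h3
      exact h3
    rw [h2]
  · intro s hs
    obtain ⟨σ, _, rfl⟩ := Multiset.mem_map.1 hs
    by_contra hno
    push Not at hno
    apply hu
    refine mv.inf u π1 hπ1 fun i r => ?_
    have h1 : ∀ r : c.D, mv.bt u i r ∈ π1.V := by
      have h2 := hno (σ.symm i)
      have h3 : σ (σ.symm i) = i := Equiv.apply_symm_apply σ i
      have h4 : ∀ r : A, mv.bt u i (c.q r) ∈ π1.V := by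
        intro r
        have h5 := h2.1 r
        change mv.bt u (σ (σ.symm i)) (c.q r) ∈ π1.V at h5
        rwa [h3] at h5
      have h5 : mv.bt u i c.x ∈ π1.V := by
        have h6 := h2.2.1
        change mv.bt u (σ (σ.symm i)) c.x ∈ π1.V at h6
        rwa [h3] at h6
      have h6 : mv.bt u i c.y ∈ π1.V := by
        have h7 := h2.2.2
        change mv.bt u (σ (σ.symm i)) c.y ∈ π1.V at h7
        rwa [h3] at h7
      intro r
      have hr : r ∈ Algebra.adjoin K (Set.range c.q ∪ {c.x, c.y}) := by
        rw [c.hgen]
        exact Algebra.mem_top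
      induction hr using Algebra.adjoin_induction with
      | mem x hx =>
        rcases hx with ⟨r, rfl⟩ | hx
        · exact h4 r
        · rcases hx with rfl | hx
          · exact h5
          · rw [Set.mem_singleton_iff.1 hx]
            exact h6
      | algebraMap k =>
        rw [AlgHom.commutes]
        exact (π1.const k).choose
      | add x y _ _ hx hy =>
        rw [map_add]
        exact π1.V.add_mem _ _ hx hy
      | mul x y _ _ hx hy =>
        rw [map_mul]
        exact π1.V.mul_mem _ _ hx hy
    exact h1 r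

theorem symC (c : CD K A a b) : ∃ n : ℕ, 0 < n ∧ ∀ (G : Type) [AddCommGroup G], TF G → ∀ Φ : Fnl (OnS a b) n G,
    ∀ p : Fin n → (c.D →ₐ[K] K), ∑ σ : Equiv.Perm (Fin n), Φ.cl (fun j => c.pt (p (σ j))) = 0 := by
  classical
  have htf : Module.IsTorsionFree K[X] c.D :=
    Module.isTorsionFree_iff_algebraMap_injective.2 (FaithfulSMul.algebraMap_injective K[X] c.D)
  have hfree : Module.Free K[X] c.D := inferInstance
  have hft : Algebra.FiniteType K c.D := Algebra.FiniteType.trans (S := K[X]) inferInstance inferInstance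
  obtain ⟨E, k1, B, hB⟩ := mvg (Module.finBasis K[X] c.D) (1 : c.D) 1
  obtain ⟨π0, h0, h0'⟩ := place_exists K 0
  refine ⟨max k1 1, lt_of_lt_of_le Nat.one_pos (le_max_right _ _), fun G _ tf Φ => ?_⟩
  obtain ⟨Sy, hSy⟩ := sc_perm Φ
  have main : ∀ d : ℕ, ∀ p : Fin (max k1 1) → (c.D →ₐ[K] K),
      (∀ i, i.val + d < max k1 1 → p i (tA K c.D) ∉ B) →
      (∀ i i', i.val + d < max k1 1 → i'.val + d < max k1 1 → i ≠ i' →
        p i (tA K c.D) ≠ p i' (tA K c.D)) →
      ∑ σ : Equiv.Perm (Fin (max k1 1)), Φ.cl (fun j => c.pt (p (σ j))) = 0 := by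
    intro d
    induction d with
    | zero =>
      intro p hp1 hp2
      have h1 : Function.Injective (fun i => p i (tA K c.D)) := by
        intro i i' hii
        by_contra hne
        exact hp2 i i' i.2 i'.2 hne hii
      obtain ⟨mv⟩ := hB _ (le_max_left _ _) p h1 (fun i => hp1 i i.2) π0 ⟨h0, h0'⟩
      exact sc_good c mv Φ
    | succ d ih =>
      intro p hp1 hp2
      by_cases hd : d + 1 ≤ max k1 1
      · obtain ⟨j, hj⟩ : ∃ j : Fin (max k1 1), j.val + (d + 1) = max k1 1 :=
          ⟨⟨max k1 1 - (d + 1), by omega⟩, by simp only []; omega⟩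
        set B' : Finset K := B ∪ Finset.univ.image (fun i => p i (tA K c.D)) with hB'
        have hpB : ∀ i, p i (tA K c.D) ∈ B' := fun i =>
          Finset.mem_union_right _ (Finset.mem_image_of_mem _ (Finset.mem_univ i))
        obtain ⟨c1, hc1⟩ := Infinite.exists_notMem_finset B'
        obtain ⟨z1, hz1⟩ := exists_hom (A := c.D) c1
        have hfinZ : ({z : c.D →ₐ[K] K | z (tA K c.D) ∈ B'} ∪ {z1}).Finite :=
          (finite_hom (A := c.D) B').union (Set.finite_singleton z1)
        have : Finite ({z : c.D →ₐ[K] K | z (tA K c.D) ∈ B'} ∪ {z1} : Set _) := hfinZ.to_subtype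
        obtain ⟨Y, hY⟩ := interp
          (fun z : ({z : c.D →ₐ[K] K | z (tA K c.D) ∈ B'} ∪ {z1} : Set (c.D →ₐ[K] K)) => z.1)
          Subtype.val_injective (fun z => if z.1 = p j then 0 else 1)
        have hY' : ∀ z : c.D →ₐ[K] K, (z (tA K c.D) ∈ B' ∨ z = z1) → z Y = if z = p j then 0 else 1 :=
          fun z hz => hY ⟨z, hz⟩
        have hz1j : z1 ≠ p j := by
          intro h
          apply hc1
          rw [← hz1, h]
          exact hpB j
        have hY0 : p j Y = 0 := by rw [hY' _ (Or.inl (hpB j)), if_pos rfl]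
        have hY1 : z1 Y = 1 := by rw [hY' _ (Or.inr rfl), if_neg hz1j]
        set s : Fin (max k1 1) → Pt K A K := fun i => c.pt (p i) with hs
        have hons : ∀ i, OnS a b (cst' (s i)) := fun i => sc_cst (sc_on c (p i))
        obtain ⟨Ψ, hΨ⟩ := slots Sy s hons (fun _ : Fin 1 => j) (fun a b _ => Subsingleton.elim a b)
        have hΨ' : ∀ P : Pt K A K, Ψ.cl (fun _ => P) =
            ∑ σ : Equiv.Perm (Fin (max k1 1)), Φ.cl (Function.update s j P ∘ σ) := by
          intro P
          rw [hΨ, sc_upd, hSy]
        have hfin : Ψ.cl (fun _ => ⟨(p j).comp c.q, p j c.x, p j c.y⟩) = 0 := by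
          refine psi tf Ψ c.q c.x c.y c.hgen Y (sc_trans hY0 hY1)
            (alg_of (tA K c.D) Y sc_alg (sc_trans hY0 hY1)) (fun i => sc_on c i) (p j) hY0 ?_
          intro p' hp'
          by_cases hpt : p' (tA K c.D) ∈ B'
          · left
            have h1 := hY' p' (Or.inl hpt)
            rw [hp'] at h1
            have h2 : p' = p j := by
              by_contra hne
              rw [if_neg hne] at h1
              exact zero_ne_one h1
            rw [h2]
          · right
            show Ψ.cl (fun _ => c.pt p') = 0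
            rw [hΨ']
            have hupd : ∀ i, Function.update s j (c.pt p') i = c.pt (Function.update p j p' i) := by
              intro i
              by_cases hij : i = j
              · rw [hij, Function.update_self, Function.update_self]
              · rw [Function.update_of_ne hij, Function.update_of_ne hij]
            have h1 := ih (Function.update p j p') ?_ ?_
            · rw [← h1]
              refine Finset.sum_congr rfl fun σ _ => ?_
              congr 1
              funext l
              exact hupd (σ l)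
            · intro i hi
              by_cases hij : i = j
              · rw [hij, Function.update_self]
                exact fun h => hpt (Finset.mem_union_left _ h)
              · rw [Function.update_of_ne hij]
                have hij' : i.val ≠ j.val := fun h => hij (Fin.ext h)
                exact hp1 i (by omega)
            · intro i i' hi hi' hne
              by_cases hij : i = j
              · have hij2 : i' ≠ j := fun h => hne (hij.trans h.symm)
                rw [hij, Function.update_self, Function.update_of_ne hij2]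
                intro h
                exact hpt (h ▸ hpB i')
              · by_cases hij2 : i' = j
                · rw [hij2, Function.update_self, Function.update_of_ne hij]
                  intro h
                  exact hpt (h ▸ hpB i)
                · rw [Function.update_of_ne hij, Function.update_of_ne hij2]
                  have hij' : i.val ≠ j.val := fun h => hij (Fin.ext h)
                  have hij3 : i'.val ≠ j.val := fun h => hij2 (Fin.ext h)
                  exact hp2 i i' (by omega) (by omega) hne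
        have h1 := hΨ' (s j)
        rw [Function.update_eq_self] at h1
        have h2 : Ψ.cl (fun _ => s j) = 0 := hfin
        rw [h2] at h1
        exact h1.symm
      · refine ih p (fun i hi => ?_) (fun i i' hi _ _ => ?_)
        · exact absurd hi (by omega)
        · exact absurd hi (by omega)
  intro p
  exact main (max k1 1) p (fun i hi => absurd hi (by omega)) (fun i i' hi _ _ => absurd hi (by omega))

end H19.ES
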